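import Mathlib
import Pool.Agent.PDN.Stmts

/-!
# PDN, module GSU: general sufficiency
-/

set_option autoImplicit false

open Finset

namespace Pool.Agent.PDN.H49

theorem sum_darts {V : Type} [Fintype V] (T : Tri V) :
    Nat.card {p : V × V // T.Adj p.1 p.2} = ∑ v, T.deg v := by
  classical
  have e : {p : V × V // T.Adj p.1 p.2} ≃ Σ v : V, {w : V // T.Adj v w} :=
    { toFun := fun p => ⟨p.1.1, p.1.2, p.2⟩
      invFun := fun q => ⟨(q.1, q.2.1), q.2.2⟩
      left_inv := fun _ => rfl
      right_inv := fun _ => rfl }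
  rw [Nat.card_congr e, Nat.card_sigma]
  rfl

theorem gsu (tpl : TplStmt) (chn : ChnStmt) : GsuStmt := by
  classical
  intro m y e hm hmy
  obtain ⟨V, fV, T, hc, hs⟩ := chn m y e hm hmy
  have hcard := congrArg Multiset.card hs
  have hsum := congrArg Multiset.sum hs
  have h1 : (Finset.univ.val.map T.deg).sum = ∑ v, T.deg v := rfl
  have h2 : Multiset.card (Finset.univ.val.map T.deg) = Fintype.card V := by
    rw [Multiset.card_map]
    rfl
  obtain ⟨k, rfl⟩ : ∃ k, m = k + 1 := ⟨m - 1, by omega⟩
  have h3 : ((Multiset.range (k + 1)).map (fun j => 4 + (if 0 < j then e (j - 1) else 0) +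
      (if j + 1 < k + 1 then e j else 0))).sum = 4 * (k + 1) + 2 * ∑ j ∈ range k, e j := by
    have h4 : ((Multiset.range (k + 1)).map (fun j => 4 + (if 0 < j then e (j - 1) else 0) +
        (if j + 1 < k + 1 then e j else 0))).sum = ∑ j ∈ range (k + 1),
        (4 + (if 0 < j then e (j - 1) else 0) + (if j + 1 < k + 1 then e j else 0)) := rfl
    rw [h4, sum_add_distrib, sum_add_distrib]
    have h5 : ∑ j ∈ range (k + 1), (if 0 < j then e (j - 1) else 0) = ∑ j ∈ range k, e j := by
      rw [sum_range_succ']
      simp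
    have h6 : ∑ j ∈ range (k + 1), (if j + 1 < k + 1 then e j else 0) = ∑ j ∈ range k, e j := by
      rw [sum_range_succ, if_neg (by omega), add_zero]
      apply sum_congr rfl
      intro j hj
      have := mem_range.1 hj
      rw [if_pos (by omega)]
    rw [h5, h6]
    simp
    ring
  have h7 : ∑ j ∈ range (k + 1 - 1), (e j + 1) = ∑ j ∈ range k, e j + k := by
    rw [sum_add_distrib]
    simp
  rw [h2, Multiset.card_add, Multiset.card_add, Multiset.card_replicate, Multiset.card_map,
    Multiset.card_range, Multiset.card_replicate, h7] at hcard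
  rw [h1, Multiset.sum_add, Multiset.sum_add, Multiset.sum_replicate, h3, Multiset.sum_replicate,
    h7] at hsum
  simp only [smul_eq_mul] at hsum
  refine ⟨V, fV, T.graph, tpl V T hc ?_, ?_⟩
  · unfold Tri.Tight
    rw [sum_darts, hsum, Nat.card_eq_fintype_card, hcard]
    generalize ∑ j ∈ range k, e j = E
    omega
  · exact hs

end Pool.Agent.PDN.H49
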