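import Mathlib

/-!
# PDN (helper49): changes of a predicate along an arithmetic progression
-/

set_option autoImplicit false

open Finset

namespace Pool.Agent.PDN.H49

open Classical in
/-- the steps `j → j + 1`, `j < N`, at which the predicate changes -/
noncomputable def chg (N : ℕ) (P : ℕ → Prop) : Finset ℕ :=
  (range N).filter fun j => ¬ (P j ↔ P (j + 1))

theorem mem_chg (N : ℕ) (P : ℕ → Prop) (j : ℕ) : j ∈ chg N P ↔ j < N ∧ ¬ (P j ↔ P (j + 1)) := by
  simp [chg]

theorem chg_interval (N : ℕ) (P : ℕ → Prop)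
    (hP : ∀ a b c, a ≤ b → b ≤ c → c ≤ N → P a → P c → P b) : (chg N P).card ≤ 2 := by
  classical
  have hsub : chg N P ⊆ ((range N).filter fun j => P j ∧ ¬ P (j + 1)) ∪
      ((range N).filter fun j => ¬ P j ∧ P (j + 1)) := by
    intro j hj
    rw [mem_chg] at hj
    simp only [mem_union, mem_filter, mem_range]
    by_cases h1 : P j <;> by_cases h2 : P (j + 1) <;> simp [h1, h2] at hj ⊢ <;> exact hj
  have h1 : ((range N).filter fun j => P j ∧ ¬ P (j + 1)).card ≤ 1 := by
    rw [card_le_one]
    intro a ha b hb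
    simp only [mem_filter, mem_range] at ha hb
    rcases lt_trichotomy a b with h | h | h
    · exact absurd (hP a (a + 1) b (by omega) h (by omega) ha.2.1 hb.2.1) ha.2.2
    · exact h
    · exact absurd (hP b (b + 1) a (by omega) h (by omega) hb.2.1 ha.2.1) hb.2.2
  have h2 : ((range N).filter fun j => ¬ P j ∧ P (j + 1)).card ≤ 1 := by
    rw [card_le_one]
    intro a ha b hb
    simp only [mem_filter, mem_range] at ha hb
    rcases lt_trichotomy a b with h | h | h
    · exact absurd (hP (a + 1) b (b + 1) (by omega) (by omega) (by omega) ha.2.2 hb.2.2) hb.2.1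
    · exact h
    · exact absurd (hP (b + 1) a (a + 1) (by omega) (by omega) (by omega) hb.2.2 ha.2.2) ha.2.1
  calc (chg N P).card ≤ _ := card_le_card hsub
    _ ≤ _ := card_union_le _ _
    _ ≤ 2 := by omega

open Classical in
/-- the steps at which the sign of a polynomial changes -/
noncomputable def sch (N : ℕ) (g : Polynomial ℝ) : Finset ℕ :=
  (range N).filter fun j => SignType.sign (g.eval (j : ℝ)) ≠ SignType.sign (g.eval ((j + 1 : ℕ) : ℝ))

theorem exists_root (g : Polynomial ℝ) (a b : ℝ) (hab : a ≤ b)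
    (h : SignType.sign (g.eval a) ≠ SignType.sign (g.eval b)) :
    ∃ z, a ≤ z ∧ z ≤ b ∧ g.eval z = 0 := by
  by_cases ha : g.eval a = 0
  · exact ⟨a, le_rfl, hab, ha⟩
  by_cases hb : g.eval b = 0
  · exact ⟨b, hab, le_rfl, hb⟩
  have hc : ContinuousOn (fun z => g.eval z) (Set.Icc a b) := g.continuous.continuousOn
  rcases lt_or_gt_of_ne ha with h1 | h1
  · rcases lt_or_gt_of_ne hb with h2 | h2
    · exact absurd (by rw [sign_neg h1, sign_neg h2]) h
    · obtain ⟨z, hz, hz2⟩ := intermediate_value_Icc hab hc ⟨h1.le, h2.le⟩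
      exact ⟨z, hz.1, hz.2, hz2⟩
  · rcases lt_or_gt_of_ne hb with h2 | h2
    · obtain ⟨z, hz, hz2⟩ := intermediate_value_Icc' hab hc ⟨h2.le, h1.le⟩
      exact ⟨z, hz.1, hz.2, hz2⟩
    · exact absurd (by rw [sign_pos h1, sign_pos h2]) h

theorem sch_card (N d : ℕ) (g : Polynomial ℝ) (hd : g.natDegree ≤ d) :
    (sch N g).card ≤ 2 * d := by
  classical
  by_cases hg : g = 0
  · subst hg
    have : sch N 0 = ∅ := by
      ext j
      simp [sch]
    rw [this]
    simp
  have hr : ∀ j ∈ sch N g, ∃ z : ℝ, (j : ℝ) ≤ z ∧ z ≤ ((j + 1 : ℕ) : ℝ) ∧ g.eval z = 0 := by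
    intro j hj
    simp only [sch, mem_filter, mem_range] at hj
    exact exists_root g _ _ (by push_cast; linarith) hj.2
  choose! z hz1 hz2 hz3 using hr
  have hmap : ∀ j ∈ sch N g, z j ∈ g.roots.toFinset := by
    intro j hj
    rw [Multiset.mem_toFinset, Polynomial.mem_roots hg]
    exact hz3 j hj
  have hfib : ∀ w ∈ g.roots.toFinset, ((sch N g).filter fun j => z j = w).card ≤ 2 := by
    intro w _
    have hsub : ((sch N g).filter fun j => z j = w) ⊆ {⌊w⌋₊, ⌊w⌋₊ - 1} := by
      intro j hj
      rw [mem_filter] at hj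
      have h1 := hz1 j hj.1
      have h2 := hz2 j hj.1
      rw [hj.2] at h1 h2
      have h3 : j ≤ ⌊w⌋₊ := Nat.le_floor h1
      have h4 : ⌊w⌋₊ ≤ j + 1 := by
        have := Nat.floor_le_floor h2
        rwa [Nat.floor_natCast] at this
      simp only [mem_insert, mem_singleton]
      omega
    exact (card_le_card hsub).trans (card_le_two)
  have h := card_le_mul_card_image_of_maps_to hmap 2 hfib
  have h2 : g.roots.toFinset.card ≤ d :=
    (Multiset.toFinset_card_le _).trans ((Polynomial.card_roots' g).trans hd)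
  exact h.trans (Nat.mul_le_mul_left 2 h2)

/-- a step at which nothing changes -/
theorem exists_step (N r s : ℕ) (P : Fin r → ℕ → Prop) (g : Fin s → Polynomial ℝ)
    (hP : ∀ k, (chg N (P k)).card ≤ 2) (hN : 2 * r + 2 * ∑ l, (g l).natDegree < N) :
    ∃ j, j < N ∧ (∀ k, P k j ↔ P k (j + 1)) ∧
      ∀ l, SignType.sign ((g l).eval (j : ℝ)) = SignType.sign ((g l).eval ((j + 1 : ℕ) : ℝ)) := by
  classical
  have h1 : ((univ.biUnion fun k => chg N (P k)) ∪ univ.biUnion fun l => sch N (g l)).card <
      (range N).card := by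
    rw [card_range]
    refine lt_of_le_of_lt ?_ hN
    refine (card_union_le _ _).trans (Nat.add_le_add ?_ ?_)
    · refine card_biUnion_le.trans ?_
      refine (sum_le_sum fun k _ => hP k).trans ?_
      simp [mul_comm]
    · refine card_biUnion_le.trans ?_
      rw [mul_sum]
      exact sum_le_sum fun l _ => sch_card N _ (g l) le_rfl
  obtain ⟨j, hj, hj2⟩ := exists_mem_notMem_of_card_lt_card h1
  rw [mem_range] at hj
  simp only [mem_union, mem_biUnion, mem_univ, true_and, not_or, not_exists] at hj2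
  refine ⟨j, hj, ?_, ?_⟩
  · intro k
    by_contra h
    exact hj2.1 k ((mem_chg _ _ _).2 ⟨hj, h⟩)
  · intro l
    by_contra h
    exact hj2.2 l (by simp only [sch, mem_filter, mem_range]; exact ⟨hj, h⟩)

end Pool.Agent.PDN.H49
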