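import Mathlib
import Pool.Agent.PDN.Stmts

/-!
# PDN (helper49): signed sums of powers of two
-/

set_option autoImplicit false

open Finset

namespace Pool.Agent.PDN.H49

theorem sum_pow_succ (m : ℕ) (s : ℕ → ℤ) :
    ∑ i ∈ range (m + 1), s i * 2 ^ (m + 1 - 1 - i) =
      2 * ∑ i ∈ range m, s i * 2 ^ (m - 1 - i) + s m := by
  rw [sum_range_succ, mul_sum]
  congr 1
  · apply sum_congr rfl
    intro i hi
    have hi' : i < m := mem_range.1 hi
    have : m + 1 - 1 - i = (m - 1 - i) + 1 := by omega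
    rw [this, pow_succ]
    ring
  · simp

theorem pw_bound (m : ℕ) (s : ℕ → ℤ) (hs : ∀ i, s i = 1 ∨ s i = -1) :
    |∑ i ∈ range m, s i * 2 ^ (m - 1 - i)| ≤ 2 ^ m - 1 := by
  induction m with
  | zero => simp
  | succ m ih =>
    rw [sum_pow_succ]
    have h1 := abs_le.1 ih
    have h2 := hs m
    rw [abs_le, pow_succ]
    constructor <;> rcases h2 with h | h <;> rw [h] <;> linarith

theorem pw_odd (m : ℕ) (hm : 1 ≤ m) (s : ℕ → ℤ) (hs : ∀ i, s i = 1 ∨ s i = -1) :
    Odd (∑ i ∈ range m, s i * 2 ^ (m - 1 - i)) := by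
  obtain ⟨k, rfl⟩ : ∃ k, m = k + 1 := ⟨m - 1, by omega⟩
  rw [sum_pow_succ]
  rcases hs k with h | h <;> rw [h]
  · exact ⟨_, rfl⟩
  · exact ⟨∑ i ∈ range k, s i * 2 ^ (k - 1 - i) - 1, by ring⟩

theorem pw_exists (m : ℕ) : ∀ u : ℤ, |u| ≤ 2 ^ m - 1 → (m = 0 ∨ Odd u) →
    ∃ s : ℕ → ℤ, (∀ i, s i = 1 ∨ s i = -1) ∧ ∑ i ∈ range m, s i * 2 ^ (m - 1 - i) = u := by
  induction m with
  | zero =>
    intro u hu _
    refine ⟨fun _ => 1, fun _ => Or.inl rfl, ?_⟩
    have : |u| ≤ 0 := by simpa using hu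
    simp [abs_nonpos_iff.1 this]
  | succ m ih =>
    intro u hu h0
    have hodd : Odd u := by rcases h0 with h | h; · omega
                            · exact h
    have hb := abs_le.1 hu
    have hpos : (1 : ℤ) ≤ 2 ^ m := one_le_pow₀ (by norm_num)
    rw [pow_succ] at hb
    -- find `e = ± 1` and `u'`
    obtain ⟨e, u', he, huu, hu', hp⟩ : ∃ e u' : ℤ, (e = 1 ∨ e = -1) ∧ u = 2 * u' + e ∧
        |u'| ≤ 2 ^ m - 1 ∧ (m = 0 ∨ Odd u') := by
      obtain ⟨k, hk⟩ := hodd
      rcases Nat.eq_zero_or_pos m with rfl | hm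
      · rcases lt_or_ge k 0 with h | h
        · refine ⟨-1, k + 1, Or.inr rfl, by omega, ?_, Or.inl rfl⟩
          have : k = -1 := by norm_num at hb; omega
          simp [this]
        · refine ⟨1, k, Or.inl rfl, by omega, ?_, Or.inl rfl⟩
          have : k = 0 := by norm_num at hb; omega
          simp [this]
      · have h2 : (2 : ℤ) ∣ 2 ^ m := dvd_pow_self 2 (by omega)
        obtain ⟨q, hq⟩ := h2
        rcases Int.even_or_odd k with h | h
        · obtain ⟨c, hc⟩ := h
          refine ⟨-1, k + 1, Or.inr rfl, by omega, ?_, Or.inr ⟨c, by omega⟩⟩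
          rw [abs_le]
          constructor <;> omega
        · refine ⟨1, k, Or.inl rfl, by omega, ?_, Or.inr h⟩
          obtain ⟨c, hc⟩ := h
          rw [abs_le]
          constructor <;> omega
    obtain ⟨s, hs, hsum⟩ := ih u' hu' hp
    refine ⟨fun i => if i = m then e else s i, fun i => ?_, ?_⟩
    · by_cases h : i = m
      · simpa [h] using he
      · simpa [h] using hs i
    · rw [sum_pow_succ]
      have h1 : ∑ i ∈ range m, (if i = m then e else s i) * 2 ^ (m - 1 - i) =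
          ∑ i ∈ range m, s i * 2 ^ (m - 1 - i) := by
        apply sum_congr rfl
        intro i hi
        have : i ≠ m := by have := mem_range.1 hi; omega
        simp [this]
      rw [h1, hsum]
      simp [huu]

/-- twice the exponents -/
theorem two_pw (m : ℕ) (s : ℕ → ℤ) :
    ∑ i ∈ range m, s i * 2 ^ (m - i) = 2 * ∑ i ∈ range m, s i * 2 ^ (m - 1 - i) := by
  rw [mul_sum]
  apply sum_congr rfl
  intro i hi
  have hi' : i < m := mem_range.1 hi
  have : m - i = (m - 1 - i) + 1 := by omega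
  rw [this, pow_succ]
  ring

end Pool.Agent.PDN.H49
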