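import Mathlib
import Pool.Agent.Helper49_PDN.Pow

/-!
# PDN (helper49): the arithmetic progression of sequences

`val m Q j i`, `i < 2 m + 6 + Nn m Q`: the `i`-th entry of the `j`-th sequence.
-/

set_option autoImplicit false

open Finset

namespace Pool.Agent.PDN.H49

/-- the item `H` -/
def Hh (m : ℕ) : ℕ := 2 ^ (m + 2)
/-- the shift `K` -/
def Kk (m : ℕ) : ℕ := 3 * 2 ^ (m + 2)
/-- the scale `M` -/
def Mm (m Q : ℕ) : ℕ := 12 * (m + 3) ^ 2 * Q
/-- the size of the two largest entries -/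
def Xx (m : ℕ) : ℕ := (2 * m + 5) * Kk m + 2 ^ m
/-- the number of the fours -/
def Nn (m Q : ℕ) : ℕ :=
  6 * (m + 3) ^ 2 * Q * ((2 * m + 4) * Kk m + 2 * Hh m + 2 ^ (m + 1) + 2 * Xx m) - 6 * (m + 2)

/-- the large entries divided by the scale -/
def wt (m j i : ℕ) : ℕ :=
  if i < 2 then Xx m - j
  else if i = 2 then Kk m + (Hh m + 2 + 2 * j)
  else if i = 3 then Kk m + Hh m
  else if i < m + 4 then Kk m + 2 ^ (m + 4 - i)
  else Kk m

/-- the entries -/
def val (m Q j i : ℕ) : ℕ := if i < 2 * m + 6 then Mm m Q * wt m j i else 4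

theorem wt_lo (m j i : ℕ) (hi : i < 2) : wt m j i = Xx m - j := by simp [wt, hi]
theorem wt_two (m j : ℕ) : wt m j 2 = Kk m + (Hh m + 2 + 2 * j) := by simp [wt]
theorem wt_three (m j : ℕ) : wt m j 3 = Kk m + Hh m := by simp [wt]
theorem wt_mid (m j i : ℕ) (hi : i < m) : wt m j (4 + i) = Kk m + 2 ^ (m - i) := by
  have h1 : ¬ (4 + i < 2) := by omega
  have h2 : ¬ (4 + i = 2) := by omega
  have h3 : ¬ (4 + i = 3) := by omega
  have h4 : 4 + i < m + 4 := by omega
  have h5 : m + 4 - (4 + i) = m - i := by omega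
  simp only [wt, h1, h2, h3, h4, h5, if_false, if_true]
theorem wt_hi (m j i : ℕ) : wt m j (4 + m + i) = Kk m := by
  have h1 : ¬ (4 + m + i < 2) := by omega
  have h2 : ¬ (4 + m + i = 2) := by omega
  have h3 : ¬ (4 + m + i = 3) := by omega
  have h4 : ¬ (4 + m + i < m + 4) := by omega
  simp only [wt, h1, h2, h3, h4, if_false]

theorem val_big (m Q j i : ℕ) (hi : i < 2 * m + 6) : val m Q j i = Mm m Q * wt m j i := by
  simp [val, hi]
theorem val_four (m Q j i : ℕ) (hi : 2 * m + 6 ≤ i) : val m Q j i = 4 := by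
  have : ¬ i < 2 * m + 6 := by omega
  simp [val, this]

/-- the signed sum of the weights -/
theorem sum_wt (m j : ℕ) (hj : j ≤ Xx m) (s : ℕ → ℤ) :
    ∑ i ∈ range (2 * m + 6), s i * (wt m j i : ℤ) =
      (s 0 + s 1) * ((Xx m : ℤ) - j) + s 2 * (Kk m + (Hh m + 2 + 2 * j)) + s 3 * (Kk m + Hh m) +
      (Kk m * ∑ i ∈ range m, s (4 + i) + ∑ i ∈ range m, s (4 + i) * 2 ^ (m - i)) +
      Kk m * ∑ i ∈ range (m + 2), s (4 + m + i) := by
  have h0 : 2 * m + 6 = 4 + m + (m + 2) := by ring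
  rw [h0, sum_range_add, sum_range_add]
  have hA : ∑ x ∈ range 4, s x * (wt m j x : ℤ) = (s 0 + s 1) * ((Xx m : ℤ) - j) +
      s 2 * (Kk m + (Hh m + 2 + 2 * j)) + s 3 * (Kk m + Hh m) := by
    simp only [sum_range_succ, sum_range_zero]
    rw [wt_lo m j 0 (by norm_num), wt_lo m j 1 (by norm_num), wt_two, wt_three,
      Nat.cast_sub hj]
    push_cast
    ring
  have hB : ∑ x ∈ range m, s (4 + x) * (wt m j (4 + x) : ℤ) =
      Kk m * ∑ i ∈ range m, s (4 + i) + ∑ i ∈ range m, s (4 + i) * 2 ^ (m - i) := by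
    rw [mul_sum, ← sum_add_distrib]
    apply sum_congr rfl
    intro i hi
    rw [wt_mid m j i (mem_range.1 hi)]
    push_cast
    ring
  have hC : ∑ x ∈ range (m + 2), s (4 + m + x) * (wt m j (4 + m + x) : ℤ) =
      Kk m * ∑ i ∈ range (m + 2), s (4 + m + i) := by
    rw [mul_sum]
    apply sum_congr rfl
    intro i _
    rw [wt_hi]
    ring
  rw [hA, hB, hC]

theorem abs_sum_sign (n : ℕ) (s : ℕ → ℤ) (hs : ∀ i, s i = 1 ∨ s i = -1) :
    |∑ i ∈ range n, s i| ≤ n := by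
  refine (abs_sum_le_sum_abs _ _).trans ?_
  have : ∑ i ∈ range n, |s i| = ∑ i ∈ range n, (1 : ℤ) := by
    apply sum_congr rfl
    intro i _
    rcases hs i with h | h <;> simp [h]
  rw [this]
  simp

/-- the arithmetic of the necessity -/
theorem arith (m Q j : ℕ) (hm : 1 ≤ m) (hQ : 1 ≤ Q) (hj : j + 2 ≤ 2 ^ m) (s : ℕ → ℤ)
    (hs : ∀ i, s i = 1 ∨ s i = -1)
    (hb : |∑ i ∈ range (2 * m + 6), s i * ((Mm m Q * wt m j i : ℕ) : ℤ)| ≤
      3 * ((2 * m + 6) * (2 * m + 6 - 1) : ℕ)) : Even j := by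
  have hjX : j ≤ Xx m := by
    have : j ≤ 2 ^ m := by omega
    exact this.trans (Nat.le_add_left _ _)
  -- the signed sum of the weights vanishes
  set Z := ∑ i ∈ range (2 * m + 6), s i * (wt m j i : ℤ) with hZ
  have hZM : ∑ i ∈ range (2 * m + 6), s i * ((Mm m Q * wt m j i : ℕ) : ℤ) = (Mm m Q : ℤ) * Z := by
    rw [hZ, mul_sum]
    apply sum_congr rfl
    intro i _
    push_cast
    ring
  have hZ0 : Z = 0 := by
    by_contra hne
    rw [hZM, abs_mul, abs_of_nonneg (Int.natCast_nonneg _)] at hb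
    have h1 : (1 : ℤ) ≤ |Z| := Int.one_le_abs hne
    have h2 : (Mm m Q : ℤ) ≤ (Mm m Q : ℤ) * |Z| := by
      nlinarith [Int.natCast_nonneg (Mm m Q)]
    have h3 : 3 * ((2 * m + 6) * (2 * m + 6 - 1)) < Mm m Q := by
      have e1 : 2 * m + 6 - 1 = 2 * m + 5 := by omega
      have e2 : Mm m 1 ≤ Mm m Q := Nat.mul_le_mul_left _ hQ
      have e3 : 3 * ((2 * m + 6) * (2 * m + 6 - 1)) < Mm m 1 := by
        rw [e1]
        unfold Mm
        nlinarith
      exact e3.trans_le e2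
    have h4 : (3 * ((2 * m + 6) * (2 * m + 6 - 1) : ℕ) : ℤ) < (Mm m Q : ℤ) := by exact_mod_cast h3
    linarith
  rw [hZ, sum_wt m j hjX s] at hZ0
  -- names
  set T := ∑ i ∈ range m, s (4 + i) with hT
  set R := ∑ i ∈ range (m + 2), s (4 + m + i) with hR
  have hTb := abs_le.1 (abs_sum_sign m (fun i => s (4 + i)) fun i => hs _)
  have hRb := abs_le.1 (abs_sum_sign (m + 2) (fun i => s (4 + m + i)) fun i => hs _)
  rw [two_pw m fun i => s (4 + i)] at hZ0
  set P := ∑ i ∈ range m, s (4 + i) * 2 ^ (m - 1 - i) with hP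
  have hPb := abs_le.1 (pw_bound m (fun i => s (4 + i)) fun i => hs _)
  have hPo := pw_odd m hm (fun i => s (4 + i)) fun i => hs _
  simp only [← hP, ← hT, ← hR] at hTb hRb hPb hPo hZ0
  -- sizes
  set p : ℤ := 2 ^ m with hp
  have hp2 : (2 : ℤ) ≤ p := by
    have : (2 : ℤ) ^ 1 ≤ 2 ^ m := pow_le_pow_right₀ (by norm_num) hm
    simpa using this
  have hK : (Kk m : ℤ) = 12 * p := by
    simp only [Kk, hp]; push_cast; ring
  have hH : (Hh m : ℤ) = 4 * p := by
    simp only [Hh, hp]; push_cast; ring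
  have hX : (Xx m : ℤ) = (2 * m + 5) * (12 * p) + p := by
    simp only [Xx]; push_cast; rw [hK]
  have hjp : (j : ℤ) + 2 ≤ p := by
    have : ((j + 2 : ℕ) : ℤ) ≤ ((2 ^ m : ℕ) : ℤ) := by exact_mod_cast hj
    push_cast at this
    exact this
  have hj0 : (0 : ℤ) ≤ j := Int.natCast_nonneg j
  rw [hK, hH, hX] at hZ0
  push_cast at hTb hRb
  have hs0 := hs 0
  have hs1 := hs 1
  have hs2 := hs 2
  have hs3 := hs 3
  -- step 1: the two largest entries have opposite signs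
  have hm0 : (0 : ℤ) ≤ m := Int.natCast_nonneg m
  have hp12 : (0 : ℤ) ≤ 12 * p := by linarith
  have hTu : 12 * p * T ≤ 12 * p * m := mul_le_mul_of_nonneg_left hTb.2 hp12
  have hTl : 12 * p * (-m) ≤ 12 * p * T := mul_le_mul_of_nonneg_left hTb.1 hp12
  have hRu : 12 * p * R ≤ 12 * p * (m + 2) := mul_le_mul_of_nonneg_left hRb.2 hp12
  have hRl : 12 * p * (-(m + 2)) ≤ 12 * p * R := mul_le_mul_of_nonneg_left hRb.1 hp12
  have h01 : s 0 + s 1 = 0 := by
    rcases hs0 with h0 | h0 <;> rcases hs1 with h1 | h1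
    · exfalso
      rw [h0, h1] at hZ0
      have : s 2 * (12 * p + (4 * p + 2 + 2 * j)) ≥ -(12 * p + (4 * p + 2 + 2 * j)) := by
        rcases hs2 with h | h <;> rw [h] <;> linarith
      have : s 3 * (12 * p + 4 * p) ≥ -(12 * p + 4 * p) := by
        rcases hs3 with h | h <;> rw [h] <;> linarith
      linarith
    · rw [h0, h1]; norm_num
    · rw [h0, h1]; norm_num
    · exfalso
      rw [h0, h1] at hZ0
      have : s 2 * (12 * p + (4 * p + 2 + 2 * j)) ≤ (12 * p + (4 * p + 2 + 2 * j)) := by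
        rcases hs2 with h | h <;> rw [h] <;> linarith
      have : s 3 * (12 * p + 4 * p) ≤ (12 * p + 4 * p) := by
        rcases hs3 with h | h <;> rw [h] <;> linarith
      linarith
  rw [h01] at hZ0
  -- step 2: the multiple of `K` vanishes
  have hZ1 : 12 * p * (s 2 + s 3 + T + R) + (s 2 * (4 * p + 2 + 2 * j) + s 3 * (4 * p) + 2 * P) = 0 := by
    linarith
  have hW : |s 2 * (4 * p + 2 + 2 * j) + s 3 * (4 * p) + 2 * P| < 12 * p := by
    rw [abs_lt]
    rcases hs2 with h2 | h2 <;> rcases hs3 with h3 | h3 <;> rw [h2, h3] <;> constructor <;> linarith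
  have hc : s 2 + s 3 + T + R = 0 := by
    by_contra hne
    have h1 : (1 : ℤ) ≤ |s 2 + s 3 + T + R| := Int.one_le_abs hne
    have h2 : |12 * p * (s 2 + s 3 + T + R)| = 12 * p * |s 2 + s 3 + T + R| := by
      rw [abs_mul, abs_of_nonneg (by linarith : (0 : ℤ) ≤ 12 * p)]
    have h3 : |12 * p * (s 2 + s 3 + T + R)| = |s 2 * (4 * p + 2 + 2 * j) + s 3 * (4 * p) + 2 * P| := by
      rw [← abs_neg]
      congr 1
      linarith
    have : 12 * p ≤ 12 * p * |s 2 + s 3 + T + R| := by nlinarith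
    linarith
  rw [hc, mul_zero, zero_add] at hZ1
  -- step 3
  obtain ⟨q, hq⟩ := hPo
  have key : (1 + (j : ℤ)) = P ∨ (1 + (j : ℤ)) = - P := by
    rcases hs2 with h2 | h2 <;> rcases hs3 with h3 | h3 <;> rw [h2, h3] at hZ1
    · exfalso; linarith
    · right; linarith
    · left; linarith
    · exfalso; linarith
  have hje : Even (j : ℤ) := by
    rcases key with h | h
    · exact ⟨q, by omega⟩
    · exact ⟨-q - 1, by omega⟩
  exact_mod_cast hje

end Pool.Agent.PDN.H49
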