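import Mathlib
import Pool.Agent.Helper49_PDN.Vals

/-!
# PDN (helper49): realizability along the arithmetic progression
-/

set_option autoImplicit false

open Finset

namespace Pool.Agent.PDN.H49

/-- the general form of SAR -/
def SarGStmt : Prop :=
  ∀ (n K M X : ℕ) (a : Fin n → ℕ), 1 ≤ n → ∑ i, a i < K → 4 ≤ M → 4 * n + 2 ≤ M * X →
    ∀ S : Finset (Fin n), ∑ i ∈ S, a i = ∑ i ∈ Sᶜ, a i →
    ∃ (y : ℕ) (e : ℕ → ℕ), 3 ≤ 2 * n + y ∧
      Multiset.replicate 2 (2 * n + y + (2 * n - 1)) +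
        (Multiset.range (2 * n)).map (fun j => 4 + (if 0 < j then e (j - 1) else 0) +
          (if j + 1 < 2 * n then e j else 0)) +
        Multiset.replicate (y + ∑ j ∈ Finset.range (2 * n - 1), (e j + 1)) 4 =
      (let b := Finset.univ.val.map (fun i => M * (K + a i)) + Multiset.replicate n (M * K) +
        Multiset.replicate 2 (M * X); b + Multiset.replicate (b.sum / 2 - 6 * n) 4)

/-- the multiset of the entries -/
theorem map_range_eq (m Q j : ℕ) :
    (Multiset.range (2 * m + 6 + Nn m Q)).map (val m Q j) =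
      (Multiset.range (2 * m + 6)).map (fun i => Mm m Q * wt m j i) +
        Multiset.replicate (Nn m Q) 4 := by
  have h : Multiset.range (2 * m + 6 + Nn m Q) =
      Multiset.range (2 * m + 6) + (Multiset.range (Nn m Q)).map (fun i => 2 * m + 6 + i) := by
    have := List.range_add (n := 2 * m + 6) (m := Nn m Q)
    unfold Multiset.range
    rw [this]
    rfl
  rw [h, Multiset.map_add]
  congr 1
  · apply Multiset.map_congr rfl
    intro i hi
    exact val_big m Q j i (Multiset.mem_range.1 hi)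
  · rw [Multiset.map_map]
    have : (Multiset.range (Nn m Q)).map (val m Q j ∘ fun i => 2 * m + 6 + i) =
        (Multiset.range (Nn m Q)).map (fun _ => 4) := by
      apply Multiset.map_congr rfl
      intro i _
      exact val_four m Q j (2 * m + 6 + i) (Nat.le_add_right _ _)
    rw [this, Multiset.map_const', Multiset.card_range]

theorem univ_map_eq {n : ℕ} (f : ℕ → ℕ) :
    (Finset.univ : Finset (Fin n)).val.map (fun i : Fin n => f i) = (Multiset.range n).map f := by
  have h1 : (Finset.univ : Finset (Fin n)).val.map (fun i : Fin n => (i : ℕ)) =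
      Multiset.range n := by
    have := Fin.map_valEmbedding_univ (n := n)
    have h2 := congrArg Finset.val this
    rw [Finset.map_val] at h2
    have h3 : (Finset.Iio n).val = Multiset.range n := by
      rw [Nat.Iio_eq_range]
      rfl
    rw [h3] at h2
    exact h2
  rw [← h1, Multiset.map_map]
  rfl

/-- the size of the arithmetic progression -/
theorem pow_facts (m : ℕ) : Hh m = 4 * 2 ^ m ∧ Kk m = 12 * 2 ^ m ∧ 2 ^ (m + 1) = 2 * 2 ^ m ∧
    1 ≤ 2 ^ m := by
  refine ⟨?_, ?_, ?_, Nat.one_le_two_pow⟩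
  · unfold Hh; ring
  · unfold Kk; ring
  · ring

/-- the sum of the large weights -/
theorem sum_wt_nat (m j : ℕ) (hj : j + 2 ≤ 2 ^ m) :
    ∑ i ∈ range (2 * m + 6), wt m j i =
      (2 * m + 4) * Kk m + 2 * Hh m + 2 ^ (m + 1) + 2 * Xx m := by
  have hjX : j ≤ Xx m := by
    have : j ≤ 2 ^ m := by omega
    exact this.trans (Nat.le_add_left _ _)
  have h := sum_wt m j hjX (fun _ => 1)
  simp only [one_mul, sum_const, card_range, nsmul_eq_mul, mul_one] at h
  have hp : ∑ x ∈ range m, (2 : ℤ) ^ (m - x) = 2 * (2 ^ m - 1) := by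
    have h2 := two_pw m (fun _ => (1 : ℤ))
    simp only [one_mul] at h2
    rw [h2]
    congr 1
    clear h h2 hj hjX
    induction m with
    | zero => simp
    | succ m ih =>
      have h3 := sum_pow_succ m (fun _ => (1 : ℤ))
      simp only [one_mul] at h3
      rw [h3, ih]
      ring
  rw [hp] at h
  have h4 : ((∑ i ∈ range (2 * m + 6), wt m j i : ℕ) : ℤ) =
      (((2 * m + 4) * Kk m + 2 * Hh m + 2 ^ (m + 1) + 2 * Xx m : ℕ) : ℤ) := by
    push_cast
    rw [h]
    push_cast
    ring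
  exact_mod_cast h4

/-- the number of the fours, doubled -/
theorem Nn_spec (m Q : ℕ) (hQ : 1 ≤ Q) :
    2 * Nn m Q + 12 * (m + 2) =
      Mm m Q * ((2 * m + 4) * Kk m + 2 * Hh m + 2 ^ (m + 1) + 2 * Xx m) := by
  unfold Nn Mm
  set S := (2 * m + 4) * Kk m + 2 * Hh m + 2 ^ (m + 1) + 2 * Xx m with hS
  have h1 : 1 ≤ S := by
    have : 1 ≤ 2 ^ (m + 1) := Nat.one_le_two_pow
    omega
  have h2 : 6 * (m + 2) ≤ 6 * (m + 3) ^ 2 * Q * S := by
    calc 6 * (m + 2) ≤ 6 * (m + 3) ^ 2 * 1 * 1 := by nlinarith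
      _ ≤ 6 * (m + 3) ^ 2 * Q * S := Nat.mul_le_mul (Nat.mul_le_mul_left _ hQ) h1
  have h3 : 12 * (m + 3) ^ 2 * Q * S = 2 * (6 * (m + 3) ^ 2 * Q * S) := by ring
  rw [h3]
  omega

/-- necessity along the progression -/
theorem nec (gne : GneStmt) (m Q j : ℕ) (hm : 1 ≤ m) (hQ : 1 ≤ Q) (hj : j + 2 ≤ 2 ^ m)
    (h : Realizable ((Multiset.range (2 * m + 6 + Nn m Q)).map (val m Q j))) : Even j := by
  rw [map_range_eq, ← univ_map_eq (n := 2 * m + 6)] at h
  have hcard : Fintype.card (Fin (2 * m + 6)) = 2 * m + 6 := Fintype.card_fin _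
  have hpf := pow_facts m
  have hM4 : 4 ∣ Mm m Q := ⟨3 * (m + 3) ^ 2 * Q, by unfold Mm; ring⟩
  have hM8 : 8 ≤ Mm m Q := by
    unfold Mm
    nlinarith [Nat.mul_le_mul_left (12 * (m + 3) ^ 2) hQ]
  have hwt : ∀ i, 1 ≤ wt m j i := by
    intro i
    unfold wt
    have h1 : 1 ≤ Xx m - j := by unfold Xx; omega
    have h2 : 1 ≤ Kk m := by omega
    split_ifs
    · exact h1
    · omega
    · omega
    · exact h2.trans (Nat.le_add_right _ _)
    · exact h2
  obtain ⟨σ, hσ, hb⟩ := gne (Fin (2 * m + 6)) (fun i => Mm m Q * wt m j i) (Nn m Q)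
    (fun i => hM4.mul_right _)
    (fun i => by
      have := Nat.mul_le_mul hM8 (hwt i)
      simpa using this)
    (by
      rw [hcard, Fin.sum_univ_eq_sum_range (fun i => Mm m Q * wt m j i), ← mul_sum,
        sum_wt_nat m j hj, ← Nn_spec m Q hQ]
      ring) h
  rw [hcard] at hb
  -- extend the signs
  set s : ℕ → ℤ := fun i => if h : i < 2 * m + 6 then σ ⟨i, h⟩ else 1 with hs
  have hs1 : ∀ i, s i = 1 ∨ s i = -1 := by
    intro i
    simp only [hs]
    split_ifs with h
    · exact hσ _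
    · exact Or.inl rfl
  refine arith m Q j hm hQ hj s hs1 ?_
  have e : ∑ i ∈ range (2 * m + 6), s i * ((Mm m Q * wt m j i : ℕ) : ℤ) =
      ∑ i : Fin (2 * m + 6), σ i * ((Mm m Q * wt m j i : ℕ) : ℤ) := by
    rw [← Fin.sum_univ_eq_sum_range (fun i => s i * ((Mm m Q * wt m j i : ℕ) : ℤ))]
    apply sum_congr rfl
    intro i _
    simp only [hs, i.2, dif_pos]
  rw [e]
  exact hb

end Pool.Agent.PDN.H49
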