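import Mathlib
import Pool.Agent.Helper49_PDN.Chg
import Pool.Agent.Helper49_PDN.Line

/-!
# PDN (helper49): facts about the progression
-/

set_option autoImplicit false

open Finset

namespace Pool.Agent.PDN.H49

/-- the value at `0` -/
def v0 (m Q i : ℕ) : ℤ := (val m Q 0 i : ℤ)

/-- the direction -/
def dir (m Q i : ℕ) : ℤ :=
  if i < 2 then -(Mm m Q : ℤ) else if i = 2 then 2 * (Mm m Q : ℤ) else 0

theorem dir_zero (m Q i : ℕ) (hi : 3 ≤ i) : dir m Q i = 0 := by
  unfold dir
  rw [if_neg (by omega), if_neg (by omega)]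

theorem Q_dvd_dir (m Q i : ℕ) : (Q : ℤ) ∣ dir m Q i := by
  have h : (Q : ℤ) ∣ (Mm m Q : ℤ) := by
    exact_mod_cast (Dvd.intro_left (12 * (m + 3) ^ 2) rfl : Q ∣ Mm m Q)
  unfold dir
  split_ifs
  · exact (dvd_neg).2 h
  · exact h.mul_left _
  · exact dvd_zero _

theorem val_affine (m Q j i : ℕ) (hj : j ≤ Xx m) : (val m Q j i : ℤ) = v0 m Q i + j * dir m Q i := by
  unfold v0
  by_cases hi : i < 2 * m + 6
  · rw [val_big m Q j i hi, val_big m Q 0 i hi]
    rcases lt_or_ge i 2 with h | h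
    · rw [wt_lo m j i h, wt_lo m 0 i h, Nat.sub_zero]
      have : dir m Q i = -(Mm m Q : ℤ) := by simp [dir, h]
      rw [this]
      push_cast [Nat.cast_sub hj]
      ring
    · rcases Nat.eq_or_lt_of_le h with h2 | h2
      · subst h2
        rw [wt_two, wt_two]
        have : dir m Q 2 = 2 * (Mm m Q : ℤ) := by simp [dir]
        rw [this]
        push_cast
        ring
      · rw [dir_zero m Q i h2]
        have : wt m j i = wt m 0 i := by
          have e1 : ¬ i < 2 := by omega
          have e2 : ¬ i = 2 := by omega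
          simp only [wt, e1, e2, if_false]
        rw [this]
        ring
  · rw [val_four m Q j i (by omega), val_four m Q 0 i (by omega), dir_zero m Q i (by omega)]
    ring

theorem val_same (m Q j j' i : ℕ) (hi : 3 ≤ i) (hj : j ≤ Xx m) (hj' : j' ≤ Xx m) :
    val m Q j i = val m Q j' i := by
  have h1 := val_affine m Q j i hj
  have h2 := val_affine m Q j' i hj'
  rw [dir_zero m Q i hi] at h1 h2
  have : (val m Q j i : ℤ) = (val m Q j' i : ℤ) := by rw [h1, h2]; ring
  exact_mod_cast this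

theorem val_modEq (m Q j j' i : ℕ) (hj : j ≤ Xx m) (hj' : j' ≤ Xx m) :
    val m Q j i ≡ val m Q j' i [MOD Q] := by
  have h1 := val_affine m Q j i hj
  have h2 := val_affine m Q j' i hj'
  have h3 : (val m Q j i : ℤ) ≡ (val m Q j' i : ℤ) [ZMOD Q] := by
    rw [Int.modEq_iff_dvd, h1, h2]
    have : v0 m Q i + j' * dir m Q i - (v0 m Q i + j * dir m Q i) = (j' - j) * dir m Q i := by ring
    rw [this]
    exact (Q_dvd_dir m Q i).mul_left _
  exact_mod_cast h3

theorem wt_anti (m j : ℕ) (hj : j + 2 ≤ 2 ^ m) (a b : ℕ) (hab : a ≤ b) : wt m j b ≤ wt m j a := by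
  obtain ⟨hH, hK, hp1, hp⟩ := pow_facts m
  have hX : 85 * 2 ^ m ≤ Xx m + 24 * 2 ^ m := by
    unfold Xx
    rw [hK]
    nlinarith
  have hpw : ∀ i, 4 ≤ i → i < m + 4 → 2 ^ (m + 4 - i) ≤ 2 ^ m := fun i h1 h2 =>
    Nat.pow_le_pow_right (by norm_num) (by omega)
  have hpos : ∀ i, 1 ≤ 2 ^ (m + 4 - i) := fun i => Nat.one_le_two_pow
  unfold wt
  by_cases b1 : b < 2
  · rw [if_pos b1, if_pos (by omega)]
  · rw [if_neg b1]
    by_cases b2 : b = 2
    · rw [if_pos b2]
      by_cases a1 : a < 2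
      · rw [if_pos a1]
        omega
      · rw [if_neg a1, if_pos (by omega)]
    · rw [if_neg b2]
      by_cases b3 : b = 3
      · rw [if_pos b3]
        by_cases a1 : a < 2
        · rw [if_pos a1]; omega
        · rw [if_neg a1]
          by_cases a2 : a = 2
          · rw [if_pos a2]; omega
          · rw [if_neg a2, if_pos (by omega)]
      · rw [if_neg b3]
        by_cases b4 : b < m + 4
        · rw [if_pos b4]
          have hb := hpw b (by omega) b4
          by_cases a1 : a < 2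
          · rw [if_pos a1]; omega
          · rw [if_neg a1]
            by_cases a2 : a = 2
            · rw [if_pos a2]; omega
            · rw [if_neg a2]
              by_cases a3 : a = 3
              · rw [if_pos a3]; omega
              · rw [if_neg a3, if_pos (by omega)]
                exact Nat.add_le_add_left (Nat.pow_le_pow_right (by norm_num) (by omega)) _
        · rw [if_neg b4]
          by_cases a1 : a < 2
          · rw [if_pos a1]; omega
          · rw [if_neg a1]
            by_cases a2 : a = 2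
            · rw [if_pos a2]; omega
            · rw [if_neg a2]
              by_cases a3 : a = 3
              · rw [if_pos a3]; omega
              · rw [if_neg a3]
                split_ifs
                · exact Nat.le_add_right _ _
                · exact le_rfl

theorem wt_pos (m j i : ℕ) (hj : j + 2 ≤ 2 ^ m) : 1 ≤ wt m j i := by
  have hpf := pow_facts m
  unfold wt
  have h1 : 1 ≤ Xx m - j := by unfold Xx; omega
  have h2 : 1 ≤ Kk m := by omega
  split_ifs
  · exact h1
  · omega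
  · omega
  · exact h2.trans (Nat.le_add_right _ _)
  · exact h2

theorem Mm_ge (m Q : ℕ) (hQ : 1 ≤ Q) : 12 ≤ Mm m Q := by
  unfold Mm
  have h1 : 12 * 1 ≤ 12 * (m + 3) ^ 2 := Nat.mul_le_mul_left _ (Nat.one_le_pow _ _ (by omega))
  calc 12 = 12 * 1 * 1 := by norm_num
    _ ≤ _ := Nat.mul_le_mul h1 hQ

theorem val_ge (m Q j i : ℕ) (hQ : 1 ≤ Q) (hj : j + 2 ≤ 2 ^ m) : 4 ≤ val m Q j i := by
  unfold val
  split_ifs
  · calc 4 ≤ 12 * 1 := by norm_num
      _ ≤ _ := Nat.mul_le_mul (Mm_ge m Q hQ) (wt_pos m j i hj)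
  · exact le_rfl

theorem val_anti (m Q j : ℕ) (hQ : 1 ≤ Q) (hj : j + 2 ≤ 2 ^ m) (a b : ℕ) (hab : a ≤ b) :
    val m Q j b ≤ val m Q j a := by
  by_cases hb : b < 2 * m + 6
  · rw [val_big m Q j b hb, val_big m Q j a (by omega)]
    exact Nat.mul_le_mul_left _ (wt_anti m j hj a b hab)
  · rw [val_four m Q j b (by omega)]
    exact val_ge m Q j a hQ hj

/-- at most `m + 5` distinct values -/
theorem val_card (m Q j n : ℕ) (hj : j ≤ Xx m) :
    ((univ : Finset (Fin n)).image fun i : Fin n => val m Q j i).card ≤ m + 5 := by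
  have hsub : ((univ : Finset (Fin n)).image fun i : Fin n => val m Q j i) ⊆
      (range (m + 5)).image fun c => if c < 3 then val m Q j (c + 1)
        else if c < m + 3 then val m Q j (c + 1) else if c = m + 3 then Mm m Q * Kk m else 4 := by
    intro x hx
    simp only [mem_image, mem_univ, true_and] at hx
    obtain ⟨i, rfl⟩ := hx
    simp only [mem_image, mem_range]
    by_cases h1 : (i : ℕ) = 0
    · refine ⟨0, by omega, ?_⟩
      rw [if_pos (by norm_num), h1, val_big m Q j _ (by omega), val_big m Q j _ (by omega),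
        wt_lo m j _ (by norm_num), wt_lo m j _ (by norm_num)]
    by_cases h2 : (i : ℕ) < m + 4
    · refine ⟨i - 1, by omega, ?_⟩
      have h3 : (i : ℕ) - 1 + 1 = i := by omega
      rw [h3]
      by_cases h4 : (i : ℕ) - 1 < 3
      · rw [if_pos h4]
      · rw [if_neg h4, if_pos (by omega)]
    by_cases h3 : (i : ℕ) < 2 * m + 6
    · refine ⟨m + 3, by omega, ?_⟩
      rw [if_neg (by omega), if_neg (by omega), if_pos rfl, val_big m Q j _ h3]
      have := wt_hi m j (i - (4 + m))
      have e : 4 + m + (i - (4 + m)) = (i : ℕ) := by omega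
      rw [e] at this
      rw [this]
    · refine ⟨m + 4, by omega, ?_⟩
      rw [if_neg (by omega), if_neg (by omega), if_neg (by omega), val_four m Q j _ (by omega)]
  calc _ ≤ _ := card_le_card hsub
    _ ≤ _ := card_image_le
    _ = _ := card_range _

/-- the number of the entries -/
theorem length_le (m Q : ℕ) (hQ : 1 ≤ Q) :
    2 * m + 6 + Nn m Q ≤ 432 * (m + 3) ^ 3 * Q * 2 ^ m := by
  have h := Nn_spec m Q hQ
  obtain ⟨hH, hK, hp1, hp⟩ := pow_facts m
  have hS : (2 * m + 4) * Kk m + 2 * Hh m + 2 ^ (m + 1) + 2 * Xx m = 36 * 2 ^ m * (2 * m + 5) := by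
    unfold Xx
    rw [hH, hK, hp1]
    ring
  rw [hS] at h
  have h2 : Mm m Q * (36 * 2 ^ m * (2 * m + 5)) = 432 * (m + 3) ^ 2 * Q * 2 ^ m * (2 * m + 5) := by
    unfold Mm; ring
  rw [h2] at h
  have h3 : 432 * (m + 3) ^ 2 * Q * 2 ^ m * (2 * m + 5) ≤
      432 * (m + 3) ^ 2 * Q * 2 ^ m * (2 * (m + 3)) :=
    Nat.mul_le_mul_left _ (by omega)
  have h4 : 432 * (m + 3) ^ 2 * Q * 2 ^ m * (2 * (m + 3)) =
      2 * (432 * (m + 3) ^ 3 * Q * 2 ^ m) := by ring
  rw [h4] at h3
  omega

theorem length_ge (m Q : ℕ) (hQ : 1 ≤ Q) : 2 ^ m ≤ 2 * m + 6 + Nn m Q := by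
  have h := Nn_spec m Q hQ
  obtain ⟨hH, hK, hp1, hp⟩ := pow_facts m
  have hS : (2 * m + 4) * Kk m + 2 * Hh m + 2 ^ (m + 1) + 2 * Xx m = 36 * 2 ^ m * (2 * m + 5) := by
    unfold Xx
    rw [hH, hK, hp1]
    ring
  rw [hS] at h
  have h1 : 12 * (36 * 2 ^ m * (2 * m + 5)) ≤ Mm m Q * (36 * 2 ^ m * (2 * m + 5)) :=
    Nat.mul_le_mul_right _ (Mm_ge m Q hQ)
  have h2 : 2 ^ m * 1 ≤ 2 ^ m * (2 * m + 5) := Nat.mul_le_mul_left _ (by omega)
  have h3 : 1 * (2 * m + 5) ≤ 2 ^ m * (2 * m + 5) := Nat.mul_le_mul_right _ hp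
  have h4 : 12 * (36 * 2 ^ m * (2 * m + 5)) = 432 * (2 ^ m * (2 * m + 5)) := by ring
  rw [h4] at h1
  omega

/-- the points of the progression in real space -/
def pt (m Q n j : ℕ) : Fin n → ℝ := fun i => (val m Q j i : ℝ)

theorem pt_eq (m Q n j : ℕ) (hj : j ≤ Xx m) (i : Fin n) :
    pt m Q n j i = (v0 m Q i : ℝ) + j * (dir m Q i : ℝ) := by
  have h := val_affine m Q j i hj
  have h2 : ((val m Q j i : ℤ) : ℝ) = ((v0 m Q i + j * dir m Q i : ℤ) : ℝ) := by rw [h]
  unfold pt
  push_cast at h2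
  exact h2

theorem convex_interval (m Q n N : ℕ) (hN : N ≤ Xx m) (C : Set (Fin n → ℝ)) (hC : Convex ℝ C) :
    ∀ a b c, a ≤ b → b ≤ c → c ≤ N → pt m Q n a ∈ C → pt m Q n c ∈ C → pt m Q n b ∈ C := by
  intro a b c hab hbc hcN ha hc
  rcases Nat.eq_or_lt_of_le (hab.trans hbc) with h | h
  · have : b = a := by omega
    rw [this]
    exact ha
  · have hac : (0 : ℝ) < (c : ℝ) - a := by
      have : (a : ℝ) < c := by exact_mod_cast h
      linarith
    have hab' : (a : ℝ) ≤ b := by exact_mod_cast hab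
    have hbc' : (b : ℝ) ≤ c := by exact_mod_cast hbc
    have key := hC ha hc (div_nonneg (sub_nonneg.2 hbc') hac.le)
      (div_nonneg (sub_nonneg.2 hab') hac.le) (by field_simp; ring)
    have e : (((c : ℝ) - (b : ℝ)) / ((c : ℝ) - (a : ℝ))) • pt m Q n a +
        (((b : ℝ) - (a : ℝ)) / ((c : ℝ) - (a : ℝ))) • pt m Q n c = pt m Q n b := by
      funext i
      rw [Pi.add_apply, Pi.smul_apply, Pi.smul_apply, smul_eq_mul, smul_eq_mul,
        pt_eq m Q n a (by omega), pt_eq m Q n c (by omega), pt_eq m Q n b (by omega)]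
      field_simp
      ring
    rw [e] at key
    exact key

/-- a polynomial along the progression -/
noncomputable def pl (m Q n : ℕ) (f : MvPolynomial (Fin n) ℝ) : Polynomial ℝ :=
  MvPolynomial.aeval (fun i : Fin n => Polynomial.C (v0 m Q i : ℝ) +
    Polynomial.X * Polynomial.C (dir m Q i : ℝ)) f

theorem pl_natDegree (m Q n : ℕ) (f : MvPolynomial (Fin n) ℝ) :
    (pl m Q n f).natDegree ≤ f.totalDegree := by
  have := MvPolynomial.aeval_natDegree_le (m := f.totalDegree) (n := 1) f le_rfl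
    (fun i : Fin n => Polynomial.C (v0 m Q i : ℝ) + Polynomial.X * Polynomial.C (dir m Q i : ℝ))
    (by
      intro i
      refine (Polynomial.natDegree_add_le _ _).trans (max_le ?_ ?_)
      · rw [Polynomial.natDegree_C]; exact Nat.zero_le _
      · refine (Polynomial.natDegree_mul_le).trans ?_
        rw [Polynomial.natDegree_C, Polynomial.natDegree_X])
  rw [mul_one] at this
  exact this

theorem pl_eval (m Q n : ℕ) (f : MvPolynomial (Fin n) ℝ) (j : ℕ) (hj : j ≤ Xx m) :
    (pl m Q n f).eval (j : ℝ) = MvPolynomial.eval (pt m Q n j) f := by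
  unfold pl
  have h1 := Polynomial.coe_evalRingHom (R := ℝ) (j : ℝ)
  have h2 : (Polynomial.evalRingHom (j : ℝ)) (MvPolynomial.aeval (fun i : Fin n =>
      Polynomial.C (v0 m Q i : ℝ) + Polynomial.X * Polynomial.C (dir m Q i : ℝ)) f) =
      MvPolynomial.eval (pt m Q n j) f := by
    rw [MvPolynomial.aeval_def, MvPolynomial.hom_eval₂]
    unfold MvPolynomial.eval
    rw [MvPolynomial.coe_eval₂Hom]
    congr 1
    · ext x
      simp
    · funext i
      simp [pt_eq m Q n j hj i]
  exact h2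

end Pool.Agent.PDN.H49
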