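import Mathlib
import Pool.Agent.Helper49_PDN.Line
import Pool.Agent.Helper15_PDN.SAR

/-!
# PDN (helper49): sufficiency along the arithmetic progression
-/

set_option autoImplicit false

open Finset

namespace Pool.Agent.PDN.H49

/-- the items: `t`, `H`, `2 ^ m`, ..., `2` -/
def item (m t : ℕ) (i : Fin (m + 2)) : ℕ :=
  if (i : ℕ) = 0 then t else if (i : ℕ) = 1 then Hh m else 2 ^ (m + 2 - i)

theorem item_zero (m t : ℕ) : item m t 0 = t := by simp [item]
theorem item_one (m t : ℕ) : item m t 1 = Hh m := by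
  have : ((1 : Fin (m + 2)) : ℕ) = 1 := by simp
  simp [item]
theorem item_succ (m t : ℕ) (i : Fin m) : item m t i.succ.succ = 2 ^ (m - i) := by
  have h1 : ((i.succ.succ : Fin (m + 2)) : ℕ) = i + 2 := by simp
  unfold item
  rw [h1, if_neg (by omega), if_neg (by omega)]
  congr 1
  omega

/-- the set for signs `s` with `∑ s i 2 ^ (m - 1 - i) = u` -/
theorem part_exists (m u : ℕ) (hu : u + 1 ≤ 2 ^ m) (ho : Odd u) :
    ∃ S : Finset (Fin (m + 2)), ∑ i ∈ S, item m (Hh m + 2 * u) i =
      ∑ i ∈ Sᶜ, item m (Hh m + 2 * u) i := by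
  obtain ⟨s, hs, hsum⟩ := pw_exists m (u : ℤ) (by
    rw [abs_of_nonneg (Int.natCast_nonneg u)]
    have : ((u + 1 : ℕ) : ℤ) ≤ ((2 ^ m : ℕ) : ℤ) := by exact_mod_cast hu
    push_cast at this
    linarith) (Or.inr (by exact_mod_cast ho))
  classical
  let S : Finset (Fin (m + 2)) := Finset.univ.filter fun i => (i : ℕ) = 0 ∨ (2 ≤ (i : ℕ) ∧ s (i - 2) = -1)
  refine ⟨S, ?_⟩
  have hz : (∑ i ∈ S, (item m (Hh m + 2 * u) i : ℤ)) - ∑ i ∈ Sᶜ, (item m (Hh m + 2 * u) i : ℤ) = 0 := by
    have e1 : (∑ i ∈ S, (item m (Hh m + 2 * u) i : ℤ)) - ∑ i ∈ Sᶜ, (item m (Hh m + 2 * u) i : ℤ) =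
        ∑ i, (if i ∈ S then (item m (Hh m + 2 * u) i : ℤ) else - (item m (Hh m + 2 * u) i : ℤ)) := by
      rw [← Finset.sum_add_sum_compl S]
      have h1 : ∑ i ∈ S, (if i ∈ S then (item m (Hh m + 2 * u) i : ℤ) else
          - (item m (Hh m + 2 * u) i : ℤ)) = ∑ i ∈ S, (item m (Hh m + 2 * u) i : ℤ) :=
        Finset.sum_congr rfl fun i hi => if_pos hi
      have h2 : ∑ i ∈ Sᶜ, (if i ∈ S then (item m (Hh m + 2 * u) i : ℤ) else
          - (item m (Hh m + 2 * u) i : ℤ)) = - ∑ i ∈ Sᶜ, (item m (Hh m + 2 * u) i : ℤ) := by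
        rw [← Finset.sum_neg_distrib]
        exact Finset.sum_congr rfl fun i hi => if_neg (Finset.mem_compl.1 hi)
      rw [h1, h2]
      ring
    rw [e1, Fin.sum_univ_succ, Fin.sum_univ_succ]
    have m0 : (0 : Fin (m + 2)) ∈ S := by simp [S]
    have m1 : (Fin.succ 0 : Fin (m + 2)) ∉ S := by simp [S]
    rw [if_pos m0, if_neg m1, item_zero]
    have i1 : item m (Hh m + 2 * u) (Fin.succ 0) = Hh m := item_one m _
    rw [i1]
    have e2 : ∑ i : Fin m, (if i.succ.succ ∈ S then (item m (Hh m + 2 * u) i.succ.succ : ℤ) else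
        - (item m (Hh m + 2 * u) i.succ.succ : ℤ)) = - ∑ i ∈ range m, s i * 2 ^ (m - i) := by
      rw [← Fin.sum_univ_eq_sum_range (fun i => s i * 2 ^ (m - i)), ← Finset.sum_neg_distrib]
      apply Finset.sum_congr rfl
      intro i _
      rw [item_succ]
      have hv : ((i.succ.succ : Fin (m + 2)) : ℕ) = i + 2 := by simp
      have hmem : i.succ.succ ∈ S ↔ s i = -1 := by
        simp only [S, Finset.mem_filter, Finset.mem_univ, true_and, hv]
        constructor
        · rintro (h | ⟨-, h⟩)
          · omega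
          · simpa using h
        · intro h
          right
          exact ⟨by omega, by simpa using h⟩
      rcases hs i with h | h
      · have : ¬ i.succ.succ ∈ S := by rw [hmem, h]; norm_num
        rw [if_neg this, h]
        push_cast
        ring
      · rw [if_pos (hmem.2 h), h]
        push_cast
        ring
    rw [e2, two_pw, hsum]
    push_cast
    ring
  have h3 : ((∑ i ∈ S, item m (Hh m + 2 * u) i : ℕ) : ℤ) =
      ((∑ i ∈ Sᶜ, item m (Hh m + 2 * u) i : ℕ) : ℤ) := by
    push_cast
    linarith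
  exact_mod_cast h3

theorem sum_item (m t : ℕ) : ∑ i, item m t i + 2 = t + Hh m + 2 ^ (m + 1) := by
  rw [Fin.sum_univ_succ, Fin.sum_univ_succ, item_zero]
  have i1 : item m t (Fin.succ 0) = Hh m := item_one m t
  rw [i1]
  have e2 : ∑ i : Fin m, item m t i.succ.succ = ∑ i ∈ range m, 2 ^ (m - i) := by
    rw [← Fin.sum_univ_eq_sum_range (fun i => 2 ^ (m - i))]
    exact Finset.sum_congr rfl fun i _ => item_succ m t i
  rw [e2]
  have h : ∑ i ∈ range m, 2 ^ (m - i) + 2 = 2 ^ (m + 1) := by
    clear e2 i1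
    induction m with
    | zero => simp
    | succ m ih =>
      rw [sum_range_succ]
      have e3 : ∑ x ∈ range m, 2 ^ (m + 1 - x) = 2 * ∑ i ∈ range m, 2 ^ (m - i) := by
        rw [mul_sum]
        apply sum_congr rfl
        intro i hi
        have hi' := mem_range.1 hi
        have : m + 1 - i = (m - i) + 1 := by omega
        rw [this, pow_succ]
        ring
      rw [e3]
      have : m + 1 - m = 1 := by omega
      rw [this, pow_succ 2 (m + 1)]
      omega
  omega

/-- the large entries as a multiset -/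
theorem big_eq (m Q j : ℕ) (hj : j + 2 ≤ 2 ^ m) :
    (Multiset.range (2 * m + 6)).map (fun i => Mm m Q * wt m j i) =
      Finset.univ.val.map (fun i => Mm m Q * (Kk m + item m (Hh m + 2 * (j + 1)) i)) +
        Multiset.replicate (m + 2) (Mm m Q * Kk m) +
        Multiset.replicate 2 (Mm m Q * (Xx m - j)) := by
  have h0 : 2 * m + 6 = (2 + (m + 2)) + (m + 2) := by ring
  have hsplit : ∀ (a b : ℕ) (f : ℕ → ℕ), (Multiset.range (a + b)).map f =
      (Multiset.range a).map f + (Multiset.range b).map (fun i => f (a + i)) := by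
    intro a b f
    have h : Multiset.range (a + b) = Multiset.range a + (Multiset.range b).map (fun i => a + i) := by
      have := List.range_add (n := a) (m := b)
      unfold Multiset.range
      rw [this]
      rfl
    rw [h, Multiset.map_add, Multiset.map_map]
    rfl
  rw [h0, hsplit, hsplit]
  have hA : (Multiset.range 2).map (fun i => Mm m Q * wt m j i) =
      Multiset.replicate 2 (Mm m Q * (Xx m - j)) := by
    have : (Multiset.range 2).map (fun i => Mm m Q * wt m j i) =
        (Multiset.range 2).map (fun _ => Mm m Q * (Xx m - j)) := by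
      apply Multiset.map_congr rfl
      intro i hi
      rw [wt_lo m j i (Multiset.mem_range.1 hi)]
    rw [this, Multiset.map_const', Multiset.card_range]
  have hC : (Multiset.range (m + 2)).map (fun i => Mm m Q * wt m j (2 + (m + 2) + i)) =
      Multiset.replicate (m + 2) (Mm m Q * Kk m) := by
    have : (Multiset.range (m + 2)).map (fun i => Mm m Q * wt m j (2 + (m + 2) + i)) =
        (Multiset.range (m + 2)).map (fun _ => Mm m Q * Kk m) := by
      apply Multiset.map_congr rfl
      intro i _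
      have e : 2 + (m + 2) + i = 4 + m + i := by ring
      rw [e, wt_hi]
    rw [this, Multiset.map_const', Multiset.card_range]
  have hB : (Multiset.range (m + 2)).map (fun i => Mm m Q * wt m j (2 + i)) =
      Finset.univ.val.map (fun i => Mm m Q * (Kk m + item m (Hh m + 2 * (j + 1)) i)) := by
    rw [← univ_map_eq]
    apply Multiset.map_congr rfl
    intro i _
    congr 1
    have hi := i.2
    by_cases c0 : (i : ℕ) = 0
    · have : i = 0 := Fin.ext (by simpa using c0)
      subst this
      rw [item_zero]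
      have : 2 + ((0 : Fin (m + 2)) : ℕ) = 2 := by simp
      rw [this, wt_two]
      ring
    · by_cases c1 : (i : ℕ) = 1
      · have : i = 1 := Fin.ext (by simpa using c1)
        subst this
        rw [item_one]
        have : 2 + ((1 : Fin (m + 2)) : ℕ) = 3 := by simp
        rw [this, wt_three]
      · have e : 2 + (i : ℕ) = 4 + ((i : ℕ) - 2) := by omega
        rw [e, wt_mid m j _ (by omega)]
        unfold item
        rw [if_neg c0, if_neg c1]
        congr 2
        omega
  rw [hA, hB, hC]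
  ac_rfl

/-- sufficiency along the progression -/
theorem suf (gsu : GsuStmt) (m Q j : ℕ) (hQ : 1 ≤ Q) (hj : j + 2 ≤ 2 ^ m)
    (he : Even j) : Realizable ((Multiset.range (2 * m + 6 + Nn m Q)).map (val m Q j)) := by
  obtain ⟨S, hS⟩ := part_exists m (j + 1) hj (by
    obtain ⟨k, hk⟩ := he
    exact ⟨k, by omega⟩)
  obtain ⟨hH, hK, hp1, hp⟩ := pow_facts m
  have hsum := sum_item m (Hh m + 2 * (j + 1))
  have hM : 12 ≤ Mm m Q := by
    unfold Mm
    have h1 : 12 * 1 ≤ 12 * (m + 3) ^ 2 := Nat.mul_le_mul_left _ (Nat.one_le_pow _ _ (by omega))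
    calc 12 = 12 * 1 * 1 := by norm_num
      _ ≤ _ := Nat.mul_le_mul h1 hQ
  have hX : 2 * m + 5 ≤ Xx m - j := by
    have h1 : (2 * m + 5) * 1 ≤ (2 * m + 5) * Kk m := Nat.mul_le_mul_left _ (by omega)
    unfold Xx
    omega
  obtain ⟨y, e, h1, h2⟩ := Pool.Agent.PDN.H15.sarG (m + 2) (Kk m) (Mm m Q) (Xx m - j)
    (item m (Hh m + 2 * (j + 1))) (by omega) (by omega) (by omega)
    (by
      have := Nat.mul_le_mul hM hX
      omega) S hS
  have h3 := gsu (2 * (m + 2)) y e (by omega) h1
  rw [h2] at h3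
  rw [map_range_eq, big_eq m Q j hj]
  -- the number of the fours
  have hsb := congrArg Multiset.sum (big_eq m Q j hj)
  have hs2 : ((Multiset.range (2 * m + 6)).map (fun i => Mm m Q * wt m j i)).sum =
      Mm m Q * ((2 * m + 4) * Kk m + 2 * Hh m + 2 ^ (m + 1) + 2 * Xx m) := by
    have := sum_wt_nat m j hj
    rw [← this, mul_sum]
    rfl
  rw [hs2, ← Nn_spec m Q hQ] at hsb
  simp only at h3
  rw [← hsb] at h3
  have h4 : (2 * Nn m Q + 12 * (m + 2)) / 2 - 6 * (m + 2) = Nn m Q := by omega
  rw [h4] at h3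
  exact h3

end Pool.Agent.PDN.H49
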