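import Mathlib
import Pool.Agent.Helper49_PDN.Conv
import Pool.Agent.Helper49_PDN.Suf

/-!
# PDN (helper49): no Boolean combination of few convex conditions, polynomial conditions and
congruences decides whether a sequence is realized by a planar graph
-/

set_option autoImplicit false

open Finset

namespace Pool.Agent.PDN.H49

theorem main (gne : GneStmt) (gsu : GsuStmt) (m Q : ℕ) (hm : 1 ≤ m) (hQ : 1 ≤ Q) :
    ∃ n : ℕ, 2 ^ m ≤ n ∧ n ≤ 432 * (m + 3) ^ 3 * Q * 2 ^ m ∧
      ∀ (r s : ℕ) (C : Fin r → Set (Fin n → ℝ)) (f : Fin s → MvPolynomial (Fin n) ℝ),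
        (∀ k, Convex ℝ (C k)) → 2 * r + 2 * ∑ l, (f l).totalDegree + 2 < 2 ^ m →
        ∃ x y : Fin n → ℕ,
          (Antitone x ∧ Antitone y) ∧ (∀ i, 4 ≤ x i ∧ 4 ≤ y i) ∧
          (∑ i, x i + 12 = 6 * n ∧ ∑ i, y i + 12 = 6 * n) ∧
          ((univ.image x).card ≤ m + 5 ∧ (univ.image y).card ≤ m + 5) ∧
          (∀ i, x i ≡ y i [MOD Q]) ∧ (∀ i : Fin n, 3 ≤ (i : ℕ) → x i = y i) ∧
          (∀ k, (fun i => (x i : ℝ)) ∈ C k ↔ (fun i => (y i : ℝ)) ∈ C k) ∧
          (∀ l, SignType.sign (MvPolynomial.eval (fun i => (x i : ℝ)) (f l)) =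
            SignType.sign (MvPolynomial.eval (fun i => (y i : ℝ)) (f l))) ∧
          Realizable (univ.val.map x) ∧ ¬ Realizable (univ.val.map y) := by
  refine ⟨2 * m + 6 + Nn m Q, length_ge m Q hQ, length_le m Q hQ, ?_⟩
  generalize hn : 2 * m + 6 + Nn m Q = n
  intro r s C f hC hrs
  have hX : 2 ^ m ≤ Xx m := Nat.le_add_left _ _
  have hpl : ∑ l, (pl m Q n (f l)).natDegree ≤ ∑ l, (f l).totalDegree :=
    sum_le_sum fun l _ => pl_natDegree m Q n (f l)
  obtain ⟨j, hj, hjC, hjf⟩ := exists_step (2 ^ m - 2) r s (fun k j => pt m Q n j ∈ C k)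
    (fun l => pl m Q n (f l))
    (fun k => chg_interval _ _ (convex_interval m Q n _ (by omega) (C k) (hC k))) (by omega)
  have hjf' : ∀ l, SignType.sign (MvPolynomial.eval (pt m Q n j) (f l)) =
      SignType.sign (MvPolynomial.eval (pt m Q n (j + 1)) (f l)) := by
    intro l
    have h := hjf l
    rw [pl_eval m Q n (f l) j (by omega), pl_eval m Q n (f l) (j + 1) (by omega)] at h
    exact h
  -- the facts about one point
  have hsum : ∀ j, j + 2 ≤ 2 ^ m → ∑ i : Fin n, val m Q j i + 12 = 6 * n := by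
    intro j hj
    have h1 : ∑ i : Fin n, val m Q j i = ((Multiset.range n).map (val m Q j)).sum := by
      rw [← univ_map_eq]
      rfl
    rw [h1, ← hn, map_range_eq, Multiset.sum_add, Multiset.sum_replicate, smul_eq_mul]
    have h2 : ((Multiset.range (2 * m + 6)).map (fun i => Mm m Q * wt m j i)).sum =
        Mm m Q * ((2 * m + 4) * Kk m + 2 * Hh m + 2 ^ (m + 1) + 2 * Xx m) := by
      have := sum_wt_nat m j hj
      rw [← this, mul_sum]
      rfl
    rw [h2, ← Nn_spec m Q hQ]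
    ring
  have key : ∀ a b, a + 2 ≤ 2 ^ m → b + 2 ≤ 2 ^ m → Even a → ¬ Even b →
      (∀ k, pt m Q n a ∈ C k ↔ pt m Q n b ∈ C k) →
      (∀ l, SignType.sign (MvPolynomial.eval (pt m Q n a) (f l)) =
        SignType.sign (MvPolynomial.eval (pt m Q n b) (f l))) →
      ∃ x y : Fin n → ℕ,
          (Antitone x ∧ Antitone y) ∧ (∀ i, 4 ≤ x i ∧ 4 ≤ y i) ∧
          (∑ i, x i + 12 = 6 * n ∧ ∑ i, y i + 12 = 6 * n) ∧
          ((univ.image x).card ≤ m + 5 ∧ (univ.image y).card ≤ m + 5) ∧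
          (∀ i, x i ≡ y i [MOD Q]) ∧ (∀ i : Fin n, 3 ≤ (i : ℕ) → x i = y i) ∧
          (∀ k, (fun i => (x i : ℝ)) ∈ C k ↔ (fun i => (y i : ℝ)) ∈ C k) ∧
          (∀ l, SignType.sign (MvPolynomial.eval (fun i => (x i : ℝ)) (f l)) =
            SignType.sign (MvPolynomial.eval (fun i => (y i : ℝ)) (f l))) ∧
          Realizable (univ.val.map x) ∧ ¬ Realizable (univ.val.map y) := by
    intro a b ha hb hae hbo hC' hf'
    refine ⟨fun i => val m Q a i, fun i => val m Q b i, ⟨?_, ?_⟩, ?_, ⟨hsum a ha, hsum b hb⟩,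
      ⟨val_card m Q a n (by omega), val_card m Q b n (by omega)⟩,
      fun i => val_modEq m Q a b i (by omega) (by omega),
      fun i hi => val_same m Q a b i hi (by omega) (by omega), hC', hf', ?_, ?_⟩
    · intro i i' hii
      exact val_anti m Q a hQ ha i i' hii
    · intro i i' hii
      exact val_anti m Q b hQ hb i i' hii
    · intro i
      exact ⟨val_ge m Q a i hQ ha, val_ge m Q b i hQ hb⟩
    · rw [univ_map_eq (val m Q a), ← hn]
      exact suf gsu m Q a hQ ha hae
    · rw [univ_map_eq (val m Q b), ← hn]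
      exact fun h => hbo (nec gne m Q b hm hQ hb h)
  by_cases he : Even j
  · exact key j (j + 1) (by omega) (by omega) he (by
      intro h
      exact (Nat.even_add_one.1 h) he) hjC hjf'
  · exact key (j + 1) j (by omega) (by omega) (Nat.even_add_one.2 he) he
      (fun k => (hjC k).symm) (fun l => (hjf' l).symm)

end Pool.Agent.PDN.H49
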