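import Mathlib
import Pool.Agent.Helper49_PDN.Main
import Pool.Agent.Helper49_PDN.Gsu
import Pool.Agent.Helper76_PDN.Gne
import Pool.Agent.Helper25_PDN.Sgn
import Pool.Agent.Helper69_PDN.Bnd
import Pool.Agent.Helper46_PDN.Eul
import Pool.Agent.Helper21_PDN.Exa
import Pool.Agent.Helper39_PDN.LIN
import Pool.Agent.Helper10_PDN.Cnt
import Pool.Agent.Helper19_PDN.COL
import Pool.Agent.Helper81_PDN.LNK
import Pool.Agent.Helper43_PDN.Oct
import Pool.Agent.Helper56_PDN.TPL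
import Pool.Agent.Helper65_PDN.CHN
import Pool.Agent.Helper81_PDN.BIP
import Pool.Agent.Helper69_PDN.Str
import Pool.Agent.Helper17_PDN.Sub

/-!
# PDN (helper49): composition
-/

set_option autoImplicit false

open Finset

namespace Pool.Agent.PDN.H49

theorem gneP : GneStmt :=
  have exa : ExaStmt := H21.exa H39.lin H10.cnt
  H76.gne (H25.sgn exa (H19.col exa)) (H69.bnd H81.lnk (H43.oct H81.lnk)) H46.eul

theorem gsuP : GsuStmt := gsu H56.tpl (H65.chn H81.bip (H69.str H17.sub))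

theorem mainP (m Q : ℕ) (hm : 1 ≤ m) (hQ : 1 ≤ Q) :
    ∃ n : ℕ, 2 ^ m ≤ n ∧ n ≤ 432 * (m + 3) ^ 3 * Q * 2 ^ m ∧
      ∀ (r s : ℕ) (C : Fin r → Set (Fin n → ℝ)) (f : Fin s → MvPolynomial (Fin n) ℝ),
        (∀ k, Convex ℝ (C k)) → 2 * r + 2 * ∑ l, (f l).totalDegree + 2 < 2 ^ m →
        ∃ x y : Fin n → ℕ,
          (Antitone x ∧ Antitone y) ∧ (∀ i, 4 ≤ x i ∧ 4 ≤ y i) ∧
          (∑ i, x i + 12 = 6 * n ∧ ∑ i, y i + 12 = 6 * n) ∧
          ((univ.image x).card ≤ m + 5 ∧ (univ.image y).card ≤ m + 5) ∧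
          (∀ i, x i ≡ y i [MOD Q]) ∧ (∀ i : Fin n, 3 ≤ (i : ℕ) → x i = y i) ∧
          (∀ k, (fun i => (x i : ℝ)) ∈ C k ↔ (fun i => (y i : ℝ)) ∈ C k) ∧
          (∀ l, SignType.sign (MvPolynomial.eval (fun i => (x i : ℝ)) (f l)) =
            SignType.sign (MvPolynomial.eval (fun i => (y i : ℝ)) (f l))) ∧
          Realizable (univ.val.map x) ∧ ¬ Realizable (univ.val.map y) :=
  main gneP gsuP m Q hm hQ

end Pool.Agent.PDN.H49
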