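import Mathlib
import Pool.Agent.Helper49_PDN.All

/-!
# Degree sequences of planar graphs: no criterion by few systems of inequalities and congruences

The condition of Erdős and Gallai for the degree sequences of all graphs is the membership in one
convex polytope together with the parity of the sum. We show that nothing of this kind is possible
for planar graphs: for sequences of length `n` at least `n ^ (1 - o(1))` convex conditions are
needed, however they are combined, and even if arbitrary congruences modulo `M` and polynomial
inequalities are allowed as well.

Given `m, M ≥ 1` there is a length `n`, `2 ^ m ≤ n ≤ 432 (m + 3) ^ 3 M 2 ^ m`, with the following property. Let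
`C 1, .., C r` be arbitrary convex subsets of `ℝ ^ n` and `f 1, .., f s` arbitrary real polynomials
in `n` variables with `2 r + 2 (deg f 1 + .. + deg f s) + 2 < 2 ^ m`. Then there are two nonincreasing
sequences `x`, `y` of `n` natural numbers such that

* `x i ≡ y i` modulo `M` for all `i`; `x ∈ C k` if and only if `y ∈ C k`; `f l x` and `f l y` have
  the same sign (negative, zero or positive);
* `x i = y i` except for the three largest entries, both sequences have sum `6 n - 12`, entries at
  least `4` and at most `m + 5` different values;
* `x` is the degree sequence of a planar graph, `y` is not.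

`PDN.Planar G` (file `Pool/Agent/PDN/Defs.lean`): `G` has a rotation system of genus zero, that is
a permutation `ρ` of the darts (ordered pairs of adjacent vertices) which permutes, for every
vertex, the darts leaving this vertex in one cycle, such that
`|V| + |faces| + |isolated vertices| = |E| + 2 |components|`, where the faces are the cycles of
`d ↦ ρ (reverse of d)`. `PDN.Realizable s`: the finite multiset `s` is the family of the degrees of
a finite planar simple graph.
-/

set_option autoImplicit false

open Finset

namespace Pool.Agent.PDN.H49.NoInequalityCriterion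

open Pool.Agent.PDN

/-- No Boolean combination of few convex conditions, polynomial inequalities of small total degree
and congruences decides whether a sequence is realized by a planar graph. -/
theorem result (m M : ℕ) (hm : 1 ≤ m) (hM : 1 ≤ M) :
    ∃ n : ℕ, 2 ^ m ≤ n ∧ n ≤ 432 * (m + 3) ^ 3 * M * 2 ^ m ∧
      ∀ (r s : ℕ) (C : Fin r → Set (Fin n → ℝ)) (f : Fin s → MvPolynomial (Fin n) ℝ),
        (∀ k, Convex ℝ (C k)) → 2 * r + 2 * ∑ l, (f l).totalDegree + 2 < 2 ^ m →
        ∃ x y : Fin n → ℕ,
          (Antitone x ∧ Antitone y) ∧ (∀ i, 4 ≤ x i ∧ 4 ≤ y i) ∧
          (∑ i, x i + 12 = 6 * n ∧ ∑ i, y i + 12 = 6 * n) ∧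
          ((univ.image x).card ≤ m + 5 ∧ (univ.image y).card ≤ m + 5) ∧
          (∀ i, x i ≡ y i [MOD M]) ∧ (∀ i : Fin n, 3 ≤ (i : ℕ) → x i = y i) ∧
          (∀ k, (fun i => (x i : ℝ)) ∈ C k ↔ (fun i => (y i : ℝ)) ∈ C k) ∧
          (∀ l, SignType.sign (MvPolynomial.eval (fun i => (x i : ℝ)) (f l)) =
            SignType.sign (MvPolynomial.eval (fun i => (y i : ℝ)) (f l))) ∧
          Realizable (univ.val.map x) ∧ ¬ Realizable (univ.val.map y) :=
  H49.mainP m M hm hM

end Pool.Agent.PDN.H49.NoInequalityCriterion
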